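import Pool.Agent.H29.LA.Targets
import Pool.Agent.H25.LS.Indep

/-!
# Row IND: an element of a subgroup of finite index with one pole among the conjugates
(adapted from `Pool.Agent.H25.LS.exists_indep`)
-/

set_option autoImplicit false

open IntermediateField
open scoped WithZero

namespace Pool.Agent.H13.LA

open Pool.Agent.H29.LA

/-- Row IND. -/
theorem pf_IND : T_IND := by
  intro F M _ _ _ _ _ _ H hH E hfg hEE
  classical
  obtain ⟨β, hβ, hE⟩ := Pool.Agent.H25.LS.hasPlaces F M hfg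
  have hδβ : ∀ δ : M ≃ₐ[F] M, δ ≠ 1 → β - δ β ≠ 0 := by
    intro δ hδ h0
    apply hδ
    have h1 : δ β = β := (sub_eq_zero.1 h0).symm
    have h2 : (δ : M →ₐ[F] M) = AlgHom.id F M := by
      have h3 : ∀ x ∈ F⟮β⟯, δ x = x := by
        intro x hx
        have hle : F⟮β⟯ ≤ fixedField (Subgroup.zpowers δ) := by
          rw [adjoin_simple_le_iff, mem_fixedField_iff]
          intro f hf
          have h4 : Subgroup.zpowers δ ≤ MulAction.stabilizer (M ≃ₐ[F] M) β := by
            rw [Subgroup.zpowers_le]; exact h1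
          exact h4 hf
        exact (mem_fixedField_iff _ _).1 (hle hx) δ (Subgroup.mem_zpowers δ)
      ext x
      exact h3 x (by rw [hβ]; exact mem_top)
    ext x
    exact AlgHom.congr_fun h2 x
  have : Fintype (M ≃ₐ[F] M) := Fintype.ofFinite _
  -- the finite set of elements to be units
  let ES : Finset F → Finset M := fun U =>
    ((Finset.univ.filter fun δ : M ≃ₐ[F] M => δ ≠ 1).image fun δ => β - δ β) ∪
      ((U ×ˢ (Finset.univ : Finset (M ≃ₐ[F] M))).image fun q => algebraMap F M q.1 - q.2 β).filter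
        (· ≠ 0) ∪ E
  have hES : ∀ U, ∀ e ∈ ES U, e ≠ 0 := by
    intro U e he
    rcases Finset.mem_union.1 he with he | he
    · rcases Finset.mem_union.1 he with he | he
      · obtain ⟨δ, hδ, rfl⟩ := Finset.mem_image.1 he
        exact hδβ δ (Finset.mem_filter.1 hδ).2
      · exact (Finset.mem_filter.1 he).2
    · exact hEE e he
  choose nu nw hnw1 hnw2 using fun U => hE (ES U) (hES U)
  let Us : ℕ → Finset F := fun n => Nat.rec ∅ (fun _ U => insert (nu U) U) n
  have hUs : ∀ n, Us (n + 1) = insert (nu (Us n)) (Us n) := fun n => rfl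
  have hmono : ∀ i j, i < j → nu (Us i) ∈ Us j := by
    intro i j hij
    induction j with
    | zero => omega
    | succ j ih =>
      rw [hUs]
      rcases Nat.lt_succ_iff_lt_or_eq.1 hij with h | rfl
      · exact Finset.mem_insert_of_mem (ih h)
      · exact Finset.mem_insert_self _ _
  have hne : ∀ n, algebraMap F M (nu (Us n)) - β ≠ 0 := by
    intro n h0
    have h1 := hnw2 (Us n)
    rw [h0, map_zero] at h1
    exact WithZero.exp_ne_zero h1.symm
  let x : ℕ → Mˣ := fun n => Units.mk0 _ (hne n)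
  have hfin : Finite (Mˣ ⧸ H) := Subgroup.finite_quotient_of_finiteIndex
  obtain ⟨i, j, hij, hq⟩ := Finite.exists_ne_map_eq_of_infinite fun n : ℕ => (x n : Mˣ ⧸ H)
  -- we may assume `i < j`
  wlog hlt : i < j generalizing i j
  · exact this j i hij.symm hq.symm (lt_of_le_of_ne (not_lt.1 hlt) hij.symm)
  have hmem : (x j)⁻¹ * x i ∈ H := by
    rw [← QuotientGroup.eq]; exact hq.symm
  have hxδ : ∀ (n : ℕ) (δ : M ≃ₐ[F] M),
      ((Units.map (δ : M →* M) (x n) : Mˣ) : M) = algebraMap F M (nu (Us n)) - δ β := by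
    intro n δ
    change δ (algebraMap F M (nu (Us n)) - β) = _
    rw [map_sub, AlgEquiv.commutes]
  have hmemES : ∀ δ : M ≃ₐ[F] M, algebraMap F M (nu (Us i)) - δ β ∈ ES (Us j) := by
    intro δ
    refine Finset.mem_union_left _ (Finset.mem_union_right _ (Finset.mem_filter.2 ⟨Finset.mem_image.2
      ⟨(nu (Us i), δ), Finset.mem_product.2 ⟨hmono i j hlt, Finset.mem_univ _⟩, rfl⟩, ?_⟩))
    rw [← hxδ]
    exact Units.ne_zero _
  set w := nw (Us j) with hw
  have hwi : ∀ δ : M ≃ₐ[F] M, w (algebraMap F M (nu (Us i)) - δ β) = 1 := fun δ =>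
    hnw1 (Us j) _ (hmemES δ)
  have hwj : w (algebraMap F M (nu (Us j)) - β) = WithZero.exp (-1 : ℤ) := hnw2 (Us j)
  have hwδ : ∀ δ : M ≃ₐ[F] M, δ ≠ 1 → w (β - δ β) = 1 := fun δ hδ =>
    hnw1 (Us j) _ (Finset.mem_union_left _ (Finset.mem_union_left _ (Finset.mem_image.2
      ⟨δ, Finset.mem_filter.2 ⟨Finset.mem_univ _, hδ⟩, rfl⟩)))
  have hwjδ : ∀ δ : M ≃ₐ[F] M, δ ≠ 1 → w (algebraMap F M (nu (Us j)) - δ β) = 1 := by
    intro δ hδ
    have h1 : algebraMap F M (nu (Us j)) - δ β =
        (algebraMap F M (nu (Us j)) - β) + (β - δ β) := by ring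
    have h2 : w (algebraMap F M (nu (Us j)) - β) < w (β - δ β) := by
      rw [hwδ δ hδ, hwj, ← WithZero.exp_zero, WithZero.exp_lt_exp]
      norm_num
    rw [h1, Valuation.map_add_eq_of_lt_right w h2, hwδ δ hδ]
  refine ⟨(x j)⁻¹ * x i, hmem, w, fun e he => hnw1 (Us j) _ (Finset.mem_union_right _ he), ?_, ?_⟩
  · have e1 : w ((x j : Mˣ) : M) = WithZero.exp (-1 : ℤ) := hwj
    have e2 : w ((x i : Mˣ) : M) = 1 := hwi 1
    rw [Units.val_mul, Units.val_inv_eq_inv_val, map_mul, map_inv₀, e1, e2, mul_one,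
      ← WithZero.exp_neg, neg_neg]
  · intro δ hδ
    have e1 : w (δ ((x j : Mˣ) : M)) = 1 := by
      have h := hxδ j δ
      change δ ((x j : Mˣ) : M) = _ at h
      rw [h]
      exact hwjδ δ hδ
    have e2 : w (δ ((x i : Mˣ) : M)) = 1 := by
      have h := hxδ i δ
      change δ ((x i : Mˣ) : M) = _ at h
      rw [h]
      exact hwi δ
    rw [Units.val_mul, Units.val_inv_eq_inv_val, map_mul, map_inv₀, map_mul, map_inv₀, e1, e2,
      mul_one, inv_one]

end Pool.Agent.H13.LA
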