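import Pool.Agent.H29.LA.Targets

/-!
# Row INH: inheritance by subgroups
-/

set_option autoImplicit false

namespace Pool.Agent.H13.LA

open Pool.Agent.H29.LA

/-- The step of the chain. -/
theorem step_sub {G : Type} [Group G] (H N N' : Subgroup G) (hN : N.Normal) (g : G)
    (h : N' = N ⊔ Subgroup.zpowers g) :
    ∃ h₀ : H, N'.subgroupOf H = N.subgroupOf H ⊔ Subgroup.zpowers h₀ := by
  have hmap : N'.map (QuotientGroup.mk' N) = Subgroup.zpowers (QuotientGroup.mk' N g) := by
    rw [h, Subgroup.map_sup, MonoidHom.map_zpowers]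
    have : N.map (QuotientGroup.mk' N) = ⊥ := by
      rw [Subgroup.map_eq_bot_iff, QuotientGroup.ker_mk']
    rw [this, bot_sup_eq]
  set C : Subgroup (G ⧸ N) := (N'.subgroupOf H).map ((QuotientGroup.mk' N).comp H.subtype) with hC
  have hle : C ≤ Subgroup.zpowers (QuotientGroup.mk' N g) := by
    rw [← hmap, hC, ← Subgroup.map_map]
    refine Subgroup.map_mono ?_
    rintro _ ⟨x, hx, rfl⟩
    exact hx
  have hcyc : IsCyclic C := Subgroup.isCyclic_of_le hle
  obtain ⟨c, hc⟩ := (Subgroup.isCyclic_iff_exists_zpowers_eq_top C).1 hcyc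
  have hcC : c ∈ C := hc ▸ Subgroup.mem_zpowers c
  obtain ⟨h₀, hh₀, hc₀⟩ := hcC
  refine ⟨h₀, le_antisymm ?_ ?_⟩
  · intro x hx
    have hxC : (QuotientGroup.mk' N).comp H.subtype x ∈ C := ⟨x, hx, rfl⟩
    rw [← hc] at hxC
    obtain ⟨n, hn⟩ := hxC
    have h1 : (QuotientGroup.mk' N).comp H.subtype (x * (h₀ ^ n)⁻¹) = 1 := by
      rw [map_mul, map_inv, map_zpow, hc₀]
      simp only at hn
      rw [hn, mul_inv_cancel]
    have h2 : x * (h₀ ^ n)⁻¹ ∈ N.subgroupOf H := by
      rw [Subgroup.mem_subgroupOf]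
      exact (QuotientGroup.eq_one_iff _).1 h1
    have h3 : x = (x * (h₀ ^ n)⁻¹) * h₀ ^ n := by group
    rw [h3]
    exact Subgroup.mul_mem_sup h2 (Subgroup.zpow_mem _ (Subgroup.mem_zpowers h₀) n)
  · refine sup_le ?_ ?_
    · intro x hx
      rw [Subgroup.mem_subgroupOf] at hx ⊢
      rw [h]
      exact Subgroup.mem_sup_left hx
    · rw [Subgroup.zpowers_le]
      exact hh₀

/-- Row INH. -/
theorem pf_INH : T_INH := by
  intro G _ _ H
  refine ⟨fun l h => ?_, fun h P => ?_, ?_⟩
  · exact Nat.Coprime.coprime_dvd_left (Subgroup.card_subgroup_dvd_card H) h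
  · have hp : IsPGroup 2 ((P : Subgroup H).map H.subtype) := P.isPGroup'.map _
    obtain ⟨Q, hQ⟩ := hp.exists_le_sylow
    haveI := h Q
    haveI : IsCyclic ((P : Subgroup H).map H.subtype) := Subgroup.isCyclic_of_le hQ
    exact isCyclic_of_injective
      ((P : Subgroup H).equivMapOfInjective H.subtype H.subtype_injective).toMonoidHom
      ((P : Subgroup H).equivMapOfInjective H.subtype H.subtype_injective).injective
  · rintro ⟨r, N, hN, h0, hr, hs⟩
    refine ⟨r, fun i => (N i).subgroupOf H, fun i => (hN i).subgroupOf H, ?_, ?_, fun i => ?_⟩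
    · simp only [h0]
      exact Subgroup.bot_subgroupOf H
    · simp only [hr]
      exact Subgroup.top_subgroupOf H
    · obtain ⟨g, hg⟩ := hs i
      exact step_sub H (N i) (N (i + 1)) (hN i) g hg

end Pool.Agent.H13.LA
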