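import Pool.Agent.H29.LA.Targets

/-!
# Row RVL: the values of the roots
-/

set_option autoImplicit false

namespace Pool.Agent.H13.LA

open Pool.Agent.H29.LA

/-- Row RVL. -/
theorem pf_RVL : T_RVL := by
  intro Ω _ Γ₀ _ V p ε hm hd hε0 hε1 hc h0 t ht
  obtain ⟨m, hmm⟩ : ∃ m, p.natDegree = m + 1 := ⟨p.natDegree - 1, by omega⟩
  rw [Polynomial.eval_eq_sum_range, Finset.sum_range_succ, hm.coeff_natDegree, one_mul] at ht
  rw [hmm] at ht hc ⊢
  have hS : V (∑ i ∈ Finset.range (m + 1), p.coeff i * t ^ i) = V t ^ (m + 1) := by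
    have h1 : ∑ i ∈ Finset.range (m + 1), p.coeff i * t ^ i = -t ^ (m + 1) := by
      rw [eq_neg_iff_add_eq_zero]
      exact ht
    rw [h1, Valuation.map_neg, map_pow]
  have hV1 : V t ≤ 1 := by
    by_contra h
    push Not at h
    have hpos : ∀ n : ℕ, 0 < V t ^ n := fun n => pow_pos (zero_lt_one.trans h) n
    have h2 : V (∑ i ∈ Finset.range (m + 1), p.coeff i * t ^ i) < V t ^ (m + 1) := by
      refine Valuation.map_sum_lt V (hpos _).ne' fun i hi => ?_
      have hi' := Finset.mem_range.1 hi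
      rw [map_mul, map_pow]
      calc V (p.coeff i) * V t ^ i ≤ ε * V t ^ i := mul_le_mul_left (hc i hi') _
        _ < 1 * V t ^ i := mul_lt_mul_of_pos_right hε1 (hpos i)
        _ = V t ^ i := one_mul _
        _ ≤ V t ^ (m + 1) := pow_le_pow_right₀ h.le hi'.le
    exact absurd hS h2.ne
  have hle : V t ^ (m + 1) ≤ ε := by
    rw [← hS]
    refine Valuation.map_sum_le V fun i hi => ?_
    rw [map_mul, map_pow]
    calc V (p.coeff i) * V t ^ i ≤ ε * 1 :=
          mul_le_mul' (hc i (Finset.mem_range.1 hi)) (pow_le_one₀ zero_le hV1)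
      _ = ε := mul_one _
  refine le_antisymm hle ?_
  by_contra h
  push Not at h
  have hlt : V t < 1 := by
    by_contra h2
    push Not at h2
    exact absurd (h.trans hε1) (not_lt.2 (one_le_pow₀ h2))
  have e0 : p.coeff 0 = -(t ^ (m + 1) + ∑ i ∈ Finset.range m, p.coeff (i + 1) * t ^ (i + 1)) := by
    rw [Finset.sum_range_succ'] at ht
    linear_combination ht
  have h3 : V (p.coeff 0) < ε := by
    rw [e0, Valuation.map_neg]
    refine Valuation.map_add_lt V (by rw [map_pow]; exact h) ?_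
    refine Valuation.map_sum_lt V hε0.ne' fun i hi => ?_
    have hi' := Finset.mem_range.1 hi
    rw [map_mul, map_pow]
    calc V (p.coeff (i + 1)) * V t ^ (i + 1) ≤ ε * V t ^ (i + 1) :=
          mul_le_mul_left (hc (i + 1) (by omega)) _
      _ < ε * 1 := mul_lt_mul_of_pos_left (pow_lt_one₀ zero_le hlt (Nat.succ_ne_zero i)) hε0
      _ = ε := mul_one _
  exact absurd h0 h3.ne

end Pool.Agent.H13.LA
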